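import Mathlib.Tactic
import Mathlib.Data.Set.Basic
import Mathlib.Data.Fintype.Card
import Mathlib.Data.Finset.Basic

/-!
# An undirected temporal graph without a directed simple non-strict realisation

The 9-cycle with the labels `{3}, {2}, {1, 4}, {3}, {2}, {1, 4}, {3}, {2}, {1, 4}` on its consecutive
edges.
-/

set_option autoImplicit false

namespace Pool.Agent.Results.MP_b998f6_co.NoSimpleRealisation

universe u

/-- A temporal graph on `V`, given by its set `E` of ordered pairs and the labels of each of them. -/
structure TemporalGraph (V : Type u) where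
  /-- the arcs -/
  E : V → V → Prop
  /-- the set of time labels of an arc -/
  lam : V → V → Set ℕ

variable {V : Type u}

/-- `G` is undirected: the arcs `(u, v)` and `(v, u)` form one edge `{u, v}` with `u ≠ v` and one label
set. -/
def Undirected (G : TemporalGraph V) : Prop :=
  ∀ u v, G.E u v → u ≠ v ∧ G.E v u ∧ G.lam u v = G.lam v u

/-- `G` is simple: every arc carries exactly one label. -/
def Simple (G : TemporalGraph V) : Prop :=
  ∀ u v, G.E u v → ∃! t, t ∈ G.lam u v

/-- `TPath G u v t`: there is a (non-strict) temporal path from `u` to `v` whose last label is `t`, that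
is, `u = v₀, v₁, …, v_k = v` with `k ≥ 1` and labels `t₁ ≤ t₂ ≤ … ≤ t_k = t` of the arcs
`(v₀, v₁), …, (v_{k-1}, v_k)`. -/
inductive TPath (G : TemporalGraph V) : V → V → ℕ → Prop
  | single {u v : V} {t : ℕ} : G.E u v → t ∈ G.lam u v → TPath G u v t
  | snoc {u w v : V} {s t : ℕ} : TPath G u w s → G.E w v → t ∈ G.lam w v → s ≤ t → TPath G u v t

/-- The arcs `u → v` of the reachability graph. -/
def Reach (G : TemporalGraph V) (u v : V) : Prop := u ≠ v ∧ ∃ t, TPath G u v t

/-- The labels of the arc `(u, v)` of the 9-cycle: the edge `{j, j + 1}` has the labels `{3}`, `{2}` or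
`{1, 4}` if `j` is `0`, `1` or `2` modulo `3`. -/
def cyc (u v : Fin 9) : List ℕ :=
  if v = u + 1 then (if u.val % 3 = 0 then [3] else if u.val % 3 = 1 then [2] else [1, 4])
  else if u = v + 1 then (if v.val % 3 = 0 then [3] else if v.val % 3 = 1 then [2] else [1, 4])
  else []

/-- The labelled 9-cycle. -/
def G₀ : TemporalGraph (Fin 9) where
  E u v := v = u + 1 ∨ u = v + 1
  lam u v := {t | t ∈ cyc u v}

/-- who knows whom in the end: `knows v u` if `u = v` or `u` reaches `v` in `G₀` -/
def knows (v : Fin 9) : List (Fin 9) :=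
  match v with
  | 0 => [0, 1, 2, 3, 7, 8]
  | 1 => [0, 1, 2, 3, 8]
  | 2 => [1, 2, 3, 4, 5, 6]
  | 3 => [1, 2, 3, 4, 5, 6]
  | 4 => [2, 3, 4, 5, 6]
  | 5 => [0, 4, 5, 6, 7, 8]
  | 6 => [0, 4, 5, 6, 7, 8]
  | 7 => [0, 5, 6, 7, 8]
  | 8 => [0, 1, 2, 3, 7, 8]

/-- knowledge after time `t` -/
def know : ℕ → Fin 9 → List (Fin 9)
  | 0, v => [v]
  | t + 1, v => know t v ++
      (if t + 1 ∈ cyc (v + 1) v then know t (v + 1) else []) ++
      (if t + 1 ∈ cyc (v + 8) v then know t (v + 8) else [])

theorem know_sub {s t : ℕ} (h : s ≤ t) (v u : Fin 9) (hu : u ∈ know s v) : u ∈ know t v := by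
  induction h with
  | refl => exact hu
  | step _ ih => exact List.mem_append_left _ (List.mem_append_left _ ih)

theorem cyc_le {u v : Fin 9} {t : ℕ} (h : t ∈ cyc u v) : 1 ≤ t ∧ t ≤ 4 := by
  unfold cyc at h
  split_ifs at h <;> simp at h <;> omega

theorem post : ∀ t ∈ [1, 2, 3, 4], ∀ w v : Fin 9, t ∈ cyc w v → ∀ u ∈ know t w, u ∈ know t v := by
  decide +kernel

theorem know_four : ∀ v u : Fin 9, u ∈ know 4 v ↔ u ∈ knows v := by decide +kernel

theorem path_know {u v : Fin 9} {t : ℕ} (h : TPath G₀ u v t) : t ≤ 4 ∧ u ∈ know t v := by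
  induction h with
  | @single v t _ h =>
      have h' : t ∈ cyc u v := h
      obtain ⟨h1, h4⟩ := cyc_le h'
      refine ⟨h4, post t (by simp; omega) u v h' u ?_⟩
      exact know_sub (Nat.zero_le t) u u (by simp [know])
  | @snoc w v s t _ _ h hst ih =>
      have h' : t ∈ cyc w v := h
      obtain ⟨h1, h4⟩ := cyc_le h'
      refine ⟨h4, post t (by simp; omega) w v h' u ?_⟩
      exact know_sub hst w u ih.2

theorem know_path : ∀ (t : ℕ) (v u : Fin 9), u ∈ know t v → u = v ∨ ∃ s ≤ t, TPath G₀ u v s := by
  intro t
  induction t with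
  | zero => intro v u h; left; simpa [know] using h
  | succ t ih =>
      intro v u h
      have key : ∀ w : Fin 9, t + 1 ∈ cyc w v → u ∈ know t w →
          u = v ∨ ∃ s ≤ t + 1, TPath G₀ u v s := by
        intro w hw hu
        have hE : G₀.E w v := by
          by_contra hc
          have : cyc w v = [] := by
            unfold cyc
            have hc' : ¬ (v = w + 1 ∨ w = v + 1) := hc
            rw [not_or] at hc'
            rw [if_neg hc'.1, if_neg hc'.2]
          rw [this] at hw
          simp at hw
        right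
        rcases ih w u hu with h | ⟨s, hs, hp⟩
        · subst h
          exact ⟨t + 1, le_refl _, TPath.single hE hw⟩
        · exact ⟨t + 1, le_refl _, TPath.snoc hp hE hw (by omega)⟩
      simp only [know, List.mem_append] at h
      rcases h with (h | h) | h
      · rcases ih v u h with h | ⟨s, hs, hp⟩
        · left; exact h
        · right; exact ⟨s, by omega, hp⟩
      · split_ifs at h with hc
        · exact key _ hc h
        · simp at h
      · split_ifs at h with hc
        · exact key _ hc h
        · simp at h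

theorem reach_iff (u v : Fin 9) : Reach G₀ u v ↔ u ≠ v ∧ u ∈ knows v := by
  constructor
  · rintro ⟨hne, t, h⟩
    refine ⟨hne, (know_four v u).1 ?_⟩
    obtain ⟨h4, hk⟩ := path_know h
    exact know_sub h4 v u hk
  · rintro ⟨hne, h⟩
    refine ⟨hne, ?_⟩
    rcases know_path 4 v u ((know_four v u).2 h) with h | ⟨s, _, h⟩
    · exact absurd h hne
    · exact ⟨s, h⟩

theorem undirected : Undirected G₀ := by
  have key : ∀ u v : Fin 9, (v = u + 1 ∨ u = v + 1) → u ≠ v ∧ (u = v + 1 ∨ v = u + 1) ∧
      cyc u v = cyc v u := by decide +kernel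
  intro u v h
  obtain ⟨h1, h2, h3⟩ := key u v h
  refine ⟨h1, h2, ?_⟩
  show {t | t ∈ cyc u v} = {t | t ∈ cyc v u}
  rw [h3]

/-! ### No directed simple realisation -/

section Descent

variable (H : TemporalGraph (Fin 9)) (hs : Simple H)
  (hR : ∀ u v : Fin 9, Reach H u v ↔ u ≠ v ∧ u ∈ knows v)

include hR in
theorem path_mem {u v : Fin 9} {t : ℕ} (h : TPath H u v t) : u ∈ knows v := by
  have hself : ∀ x : Fin 9, x ∈ knows x := by decide
  by_cases hne : u = v
  · subst hne; exact hself u
  · exact ((hR u v).1 ⟨hne, t, h⟩).2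

/-- an arc with its label -/
def A (u v : Fin 9) (t : ℕ) : Prop := H.E u v ∧ t ∈ H.lam u v

theorem A.path {H : TemporalGraph (Fin 9)} {u v : Fin 9} {t : ℕ} (h : A H u v t) : TPath H u v t :=
  TPath.single h.1 h.2

theorem A.snoc {H : TemporalGraph (Fin 9)} {u w v : Fin 9} {s t : ℕ} (h : A H w v t)
    (hp : TPath H u w s) (hst : s ≤ t) : TPath H u v t :=
  TPath.snoc hp h.1 h.2 hst

include hs in
theorem A.unique {u v : Fin 9} {s t : ℕ} (h : A H u v s) (h' : A H u v t) : s = t :=
  (hs u v h.1).unique h.2 h'.2

include hs hR in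
/-- The descent step: an arc from block `i - 1` to the middle vertex of block `i` with label `τ` forces an
arc from block `i` to the middle vertex of block `i + 1` with a smaller label. -/
theorem step (j : Fin 9) (hj : j = 0 ∨ j = 3 ∨ j = 6) (τ : ℕ) (p : Fin 9) (hp : p = j ∨ p = j + 8)
    (hτ : A H p (j + 1) τ) :
    ∃ q : Fin 9, (q = j + 3 ∨ q = j + 2) ∧ ∃ τ' < τ, A H q (j + 4) τ' := by
  by_contra hcon
  -- all arcs from the pair to the next middle vertex are late
  have late : ∀ q : Fin 9, (q = j + 3 ∨ q = j + 2) → ∀ t, A H q (j + 4) t → τ ≤ t := by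
    intro q hq t ht
    by_contra hlt
    exact hcon ⟨q, hq, t, by omega, ht⟩
  -- all arcs from the middle vertex to the pair are early
  have early : ∀ q : Fin 9, (q = j + 3 ∨ q = j + 2) → ∀ t, A H (j + 1) q t → t < τ := by
    intro q hq t ht
    by_contra hlt
    have h1 := path_mem H hR (ht.snoc hτ.path (by omega))
    revert h1
    revert hj hp hq
    clear hcon late ht hτ
    revert j p q
    decide +kernel
  have nomid : ¬ (j + 1 ∈ knows (j + 4)) := by
    revert hj; clear hcon late early hτ hp; revert j; decide +kernel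
  -- a vertex which hears directly from the middle vertex does not talk to the next middle vertex
  have excl : ∀ q : Fin 9, (q = j + 3 ∨ q = j + 2) → ∀ s t, A H (j + 1) q s → ¬ A H q (j + 4) t := by
    intro q hq s t h1 h2
    have hlt := early q hq s h1
    have hle := late q hq t h2
    exact nomid (path_mem H hR (h2.snoc h1.path (by omega)))
  -- the middle vertex talks to one of the pair
  have hv : ∃ v w : Fin 9, ((v = j + 3 ∧ w = j + 2) ∨ (v = j + 2 ∧ w = j + 3)) ∧
      ∃ s, A H (j + 1) v s := by
    have hreach : ∃ t, TPath H (j + 1) (j + 2) t := by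
      refine ((hR (j + 1) (j + 2)).2 ?_).2
      revert hj; clear hcon late early nomid excl hτ hp; revert j; decide +kernel
    have key : ∀ x t, TPath H (j + 1) x t → (x = j + 3 ∨ x = j + 2) →
        ∃ v, (v = j + 3 ∨ v = j + 2) ∧ ∃ s, A H (j + 1) v s := by
      intro x t hx
      generalize hm : j + 1 = m at hx
      induction hx with
      | @single v t hE hl =>
          intro hx
          exact ⟨v, hx, t, hE, hl⟩
      | @snoc w v s t hpth hE hl hst ih =>
          intro hx
          have h1 : m ∈ knows w := path_mem H hR hpth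
          have h2 : w ∈ knows v := path_mem H hR (TPath.single hE hl)
          have h3 : w = m ∨ w = j + 3 ∨ w = j + 2 := by
            revert h1 h2 hx
            subst hm
            clear ih hst hl hE hpth excl nomid early late hcon hτ hp hreach
            revert hj
            revert j w v
            decide +kernel
          rcases h3 with h3 | h3
          · subst h3; exact ⟨v, hx, t, hE, hl⟩
          · exact ih h3
    obtain ⟨t, ht⟩ := hreach
    obtain ⟨v, hv, s, hs'⟩ := key _ _ ht (Or.inr rfl)
    rcases hv with hv | hv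
    · exact ⟨v, j + 2, Or.inl ⟨hv, rfl⟩, s, hs'⟩
    · exact ⟨v, j + 3, Or.inr ⟨hv, rfl⟩, s, hs'⟩
  obtain ⟨v, w, hvw, s₀, hs₀⟩ := hv
  have hvq : v = j + 3 ∨ v = j + 2 := by rcases hvw with h | h <;> [left; right] <;> exact h.1
  have hwq : w = j + 3 ∨ w = j + 2 := by rcases hvw with h | h <;> [right; left] <;> exact h.2
  have hv' : ∀ t, ¬ A H v (j + 4) t := fun t => excl v hvq s₀ t hs₀
  -- `v` reaches the next middle vertex, necessarily by `v → w → m'`
  have hab : ∃ a b, A H v w a ∧ A H w (j + 4) b ∧ a ≤ b := by
    have hreach : ∃ t, TPath H v (j + 4) t := by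
      refine ((hR v (j + 4)).2 ?_).2
      revert hvq hj
      clear hv' hwq hvw hs₀ excl nomid early late hcon hτ hp
      revert v j
      decide +kernel
    have facts1 : ∀ y : Fin 9, v ∈ knows y → y ∈ knows (j + 4) → y = v ∨ y = w ∨ y = j + 4 := by
      intro y h1 h2
      revert h1 h2 hj
      clear hreach hv' hwq hvq hs₀ excl nomid early late hcon hτ hp
      rcases hvw with ⟨rfl, rfl⟩ | ⟨rfl, rfl⟩ <;> revert y j <;> decide +kernel
    have key : ∀ x t, TPath H v x t →
        (x = j + 4 → ∃ a b, A H v w a ∧ A H w (j + 4) b ∧ a ≤ b) ∧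
        (x = w → ∀ b, t ≤ b → A H w (j + 4) b → ∃ a b, A H v w a ∧ A H w (j + 4) b ∧ a ≤ b) := by
      intro x t hx
      induction hx with
      | @single x t hE hl =>
          constructor
          · intro hx; subst hx; exact absurd ⟨hE, hl⟩ (hv' t)
          · intro hx b hb hwb; subst hx; exact ⟨t, b, ⟨hE, hl⟩, hwb, hb⟩
      | @snoc y x s t hpth hE hl hst ih =>
          have h1 : v ∈ knows y := path_mem H hR hpth
          constructor
          · intro hx
            subst hx
            have h2 : y ∈ knows (j + 4) := path_mem H hR (TPath.single hE hl)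
            rcases facts1 y h1 h2 with h | h | h
            · subst h; exact absurd ⟨hE, hl⟩ (hv' t)
            · subst h; exact ih.2 rfl t hst ⟨hE, hl⟩
            · exact ih.1 h
          · intro hx b hb hwb
            subst hx
            have h2 : y ∈ knows (j + 4) := path_mem H hR (hwb.snoc (TPath.single hE hl) hb)
            rcases facts1 y h1 h2 with h | h | h
            · subst h; exact ⟨t, b, ⟨hE, hl⟩, hwb, hb⟩
            · exact ih.2 h b (le_trans hst hb) hwb
            · exact ih.1 h
    obtain ⟨t, ht⟩ := hreach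
    exact (key _ _ ht).1 rfl
  obtain ⟨a, b, ha, hb, hab⟩ := hab
  have hw' : ∀ t, ¬ A H (j + 1) w t := fun t ht => excl w hwq t b ht hb
  -- the middle vertex reaches `w`, necessarily through `v → w`
  have hmv : ∃ s ≤ a, TPath H (j + 1) v s := by
    have hreach : ∃ t, TPath H (j + 1) w t := by
      refine ((hR (j + 1) w).2 ?_).2
      revert hwq hj
      clear hw' hv' hvw hab ha hb hvq hs₀ excl nomid early late hcon hτ hp
      revert w j
      decide +kernel
    have facts : ∀ y : Fin 9, j + 1 ∈ knows y → y ∈ knows w → y = j + 1 ∨ y = v ∨ y = w := by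
      intro y h1 h2
      revert h1 h2 hj
      clear hreach hw' hv' hwq hvq hab ha hb hs₀ excl nomid early late hcon hτ hp
      rcases hvw with ⟨rfl, rfl⟩ | ⟨rfl, rfl⟩ <;> revert y j <;> decide +kernel
    have key : ∀ x t, TPath H (j + 1) x t → x = w → ∃ s ≤ a, TPath H (j + 1) v s := by
      intro x t hx
      generalize hm : j + 1 = m at hx
      induction hx with
      | @single x t hE hl =>
          intro hx; subst hx; subst hm; exact absurd ⟨hE, hl⟩ (hw' t)
      | @snoc y x s t hpth hE hl hst ih =>
          intro hx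
          subst hx
          have h1 : m ∈ knows y := path_mem H hR hpth
          have h2 : y ∈ knows x := path_mem H hR (TPath.single hE hl)
          rcases facts y (by rw [hm]; exact h1) h2 with h | h | h
          · subst h; exact absurd ⟨hE, hl⟩ (hw' t)
          · subst h
            have : t = a := A.unique H hs ⟨hE, hl⟩ ha
            exact ⟨s, by omega, hpth⟩
          · exact ih h
    obtain ⟨t, ht⟩ := hreach
    exact key _ _ ht rfl
  obtain ⟨s, hsa, hmv⟩ := hmv
  exact nomid (path_mem H hR (hb.snoc (ha.snoc hmv hsa) hab))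

include hs hR in
theorem no_arc : ∀ (τ : ℕ) (j : Fin 9), (j = 0 ∨ j = 3 ∨ j = 6) → ∀ p : Fin 9, (p = j ∨ p = j + 8) →
    ¬ A H p (j + 1) τ := by
  intro τ
  induction τ using Nat.strong_induction_on with
  | _ τ ih =>
      intro j hj p hp h
      obtain ⟨q, hq, τ', hlt, h'⟩ := step H hs hR j hj τ p hp h
      refine ih τ' hlt (j + 3) ?_ q ?_ ?_
      · revert hj; clear h h' hp hq; revert j; decide
      · rcases hq with hq | hq
        · left; exact hq
        · right; rw [hq]; clear h h' hp hq hj; revert j; decide
      · have : j + 3 + 1 = j + 4 := by clear h h' hp hq hj; revert j; decide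
        rw [this]; exact h'

include hs hR in
theorem contradiction : False := by
  have h : ∃ t, TPath H 0 1 t := ((hR 0 1).2 (by decide)).2
  have key : ∀ x t, TPath H 0 x t → x = 1 → False := by
    intro x t hx
    generalize hz : (0 : Fin 9) = z at hx
    induction hx with
    | @single x t hE hl =>
        intro hx
        subst hx; subst hz
        exact no_arc H hs hR t 0 (Or.inl rfl) 0 (Or.inl rfl) ⟨hE, hl⟩
    | @snoc y x s t hpth hE hl hst ih =>
        intro hx
        subst hx
        have h1 : z ∈ knows y := path_mem H hR hpth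
        have h2 : y ∈ knows 1 := path_mem H hR (TPath.single hE hl)
        have h3 : y = 0 ∨ y = 8 ∨ y = 1 := by
          subst hz
          revert h1 h2
          clear ih hst hl hE hpth
          revert y
          decide +kernel
        rcases h3 with h3 | h3 | h3
        · exact no_arc H hs hR t 0 (Or.inl rfl) y (Or.inl h3) ⟨hE, hl⟩
        · exact no_arc H hs hR t 0 (Or.inl rfl) y (Or.inr h3) ⟨hE, hl⟩
        · exact ih h3
  obtain ⟨t, ht⟩ := h
  exact key _ _ ht rfl

end Descent

/-- pull a temporal graph back along a bijection -/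
def pull {W : Type u} (H : TemporalGraph W) (φ : Fin 9 ≃ W) : TemporalGraph (Fin 9) where
  E a b := H.E (φ a) (φ b)
  lam a b := H.lam (φ a) (φ b)

theorem pull_path {W : Type u} (H : TemporalGraph W) (φ : Fin 9 ≃ W) (a b : Fin 9) (t : ℕ) :
    TPath (pull H φ) a b t ↔ TPath H (φ a) (φ b) t := by
  constructor
  · intro h
    induction h with
    | single hE hl => exact TPath.single hE hl
    | snoc _ hE hl hst ih => exact TPath.snoc ih hE hl hst
  · intro h
    have key : ∀ x y : W, TPath H x y t → TPath (pull H φ) (φ.symm x) (φ.symm y) t := by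
      clear h
      intro x y h
      induction h with
      | @single v t hE hl =>
          refine TPath.single ?_ ?_
          · show H.E (φ (φ.symm x)) (φ (φ.symm v)); simpa using hE
          · show t ∈ H.lam (φ (φ.symm x)) (φ (φ.symm v)); simpa using hl
      | @snoc w v s t _ hE hl hst ih =>
          refine TPath.snoc ih ?_ ?_ hst
          · show H.E (φ (φ.symm w)) (φ (φ.symm v)); simpa using hE
          · show t ∈ H.lam (φ (φ.symm w)) (φ (φ.symm v)); simpa using hl
    simpa using key _ _ h

/-- There is an undirected temporal graph (on 9 vertices) whose non-strict reachability graph is not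
isomorphic to the non-strict reachability graph of any directed simple temporal graph. -/
theorem result : ∃ G : TemporalGraph (Fin 9), Undirected G ∧
    ∀ (W : Type u) (H : TemporalGraph W), Simple H →
      ¬ ∃ φ : Fin 9 ≃ W, ∀ a b, Reach G a b ↔ Reach H (φ a) (φ b) := by
  refine ⟨G₀, undirected, ?_⟩
  rintro W H hs ⟨φ, hφ⟩
  refine contradiction (pull H φ) ?_ ?_
  · intro a b h
    exact hs (φ a) (φ b) h
  · intro a b
    rw [← reach_iff a b, hφ a b]
    unfold Reach
    simp only [pull_path]
    constructor
    · rintro ⟨h1, h2⟩; exact ⟨fun h => h1 (by simpa using h), h2⟩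
    · rintro ⟨h1, h2⟩; exact ⟨fun h => h1 (by rw [h]), h2⟩

end Pool.Agent.Results.MP_b998f6_co.NoSimpleRealisation
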